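import Pool.Agent.Q20.AS.MainD

set_option autoImplicit false

/-!
# Least primes in progressions, every modulus: arbitrary sets of `C (φ(m) / m) log m` multipliers do not suffice

Let `C`, `δ > 0`, `K` be given. For every large modulus `m`, EVERY set `J` of at most `C (φ(m) / m) log m` integers
`|j| ≤ m ^ K` and every `y ≤ m ^ K` there is a residue `c` prime to `m` in `[y, y + m ^ δ]` such that none of the numbers
`c + j m`, `j ∈ J`, is prime: each of them has a prime factor `p ≤ m ^ δ` with `p ∤ m` and `p < |c + j m|`.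

On average over the reduced classes about `C` of these numbers are prime in absolute value.

Proof: the square weights of the project AC of the starting repository (helper410 and the helpers of that project), in the
form `Pool.Agent.Q20.AS.formsD`: general systems of residue classes, a restricted set of primes, and control of the second
moment in the classes divisible by the prime factors of `m`.
-/

namespace Pool.Agent.Results.MP_e1dc24_nt.ArbitraryMultipliers

open Filter

theorem result (C δ : ℝ) (K : ℕ) (hδ : 0 < δ) : ∀ᶠ m : ℕ in atTop, ∀ J : Finset ℤ,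
    (∀ j ∈ J, |j| ≤ (m : ℤ) ^ K) → (J.card : ℝ) ≤ C * ((m.totient : ℝ) / m) * Real.log m →
    ∀ y : ℕ, y ≤ m ^ K → ∃ c : ℕ, y ≤ c ∧ (c : ℝ) ≤ y + (m : ℝ) ^ δ ∧ Nat.Coprime c m ∧
      ∀ j ∈ J, ∃ p : ℕ, p.Prime ∧ ¬ p ∣ m ∧ (p : ℝ) ≤ (m : ℝ) ^ δ ∧ (p : ℤ) ∣ c + j * m ∧
        (p : ℤ) < |(c : ℤ) + j * m| := by
  classical
  obtain ⟨X₀, hX₀⟩ := Pool.Agent.Q20.AS.formsD C δ (K + 1) hδ
  filter_upwards [eventually_ge_atTop X₀, eventually_ge_atTop 2] with m hm hm2 J hJ hJc y hy
  have hm0 : (0 : ℝ) < m := by exact_mod_cast (by omega : 0 < m)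
  have hA : ∀ l ∈ J.image (fun j : ℤ => ((1 : ℕ), j * (m : ℤ))), 1 ≤ l.1 ∧
      (∀ p : ℕ, p.Prime → p ∣ l.1 → p ∣ m) ∧ l.1 ≤ m ^ (K + 1) ∧ |l.2| ≤ (m : ℤ) ^ (K + 1) := by
    intro l hl
    rw [Finset.mem_image] at hl
    obtain ⟨j, hj, rfl⟩ := hl
    refine ⟨le_rfl, fun p hp hd => ?_, Nat.one_le_pow _ _ (by omega), ?_⟩
    · exact absurd (Nat.dvd_one.mp hd) hp.one_lt.ne'
    · simp only
      rw [abs_mul, pow_succ]
      refine mul_le_mul (hJ j hj) ?_ (abs_nonneg _) (by positivity)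
      exact (abs_of_nonneg (by positivity)).le
  have hB : ((J.image (fun j : ℤ => ((1 : ℕ), j * (m : ℤ)))).card : ℝ) * m ≤
      C * m.totient * Real.log m := by
    have h6 : ((J.image (fun j : ℤ => ((1 : ℕ), j * (m : ℤ)))).card : ℝ) ≤ J.card := by
      exact_mod_cast Finset.card_image_le
    calc ((J.image (fun j : ℤ => ((1 : ℕ), j * (m : ℤ)))).card : ℝ) * m ≤ J.card * m :=
          mul_le_mul_of_nonneg_right h6 hm0.le
      _ ≤ (C * ((m.totient : ℝ) / m) * Real.log m) * m := mul_le_mul_of_nonneg_right hJc hm0.le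
      _ = C * m.totient * Real.log m := by field_simp
  obtain ⟨c, h1, h2, h3, -, h5⟩ := hX₀ m hm m (by omega) (Nat.le_self_pow (by omega) m)
    (J.image (fun j : ℤ => ((1 : ℕ), j * (m : ℤ)))) hA hB y
    (hy.trans (Nat.pow_le_pow_right (by omega) (by omega))) ∅ (by simp; positivity)
  refine ⟨c, h1, h2, h3, fun j hj => ?_⟩
  obtain ⟨p, a1, a2, a3, a4, a5⟩ := h5 _ (Finset.mem_image_of_mem _ hj)
  simp only [Nat.cast_one, one_mul] at a4 a5
  exact ⟨p, a1, a2, a3, a4, a5⟩

end Pool.Agent.Results.MP_e1dc24_nt.ArbitraryMultipliers
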