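import Pool.Agent.Q48.RD.Pairs

/-!
# Almost primes `k m + b` with a multiplier `k` of the order of `log m`

Let `g ≥ 2` be a base and `K` a large number of digits. For every `i < K` let `A i` be an arbitrary set of digits, such that the number
`|A 0| ⋯ |A (K - 1)|` of the integers `t < g ^ K` whose `i`-th digit belongs to `A i` for all `i < K` is at least `exp (- c K) g ^ K`
(`Rich`). Let `N ≤ g ^ (E K)` and `1 ≤ b ≤ g ^ (E K)` be arbitrary. We consider the moduli `m = N + t` with these `t`: they form a set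
with only `y ^ (1 - δ)` elements in an interval of length `y = g ^ K`, which may be an arbitrarily small power of `m`. We assume that
for some digit `d` in `A 0` the common divisor of `N + d` and `b` is prime to `g` (otherwise no `m` is prime to `b`).

Let `g ≤ T ≤ g ^ (E K)`, and let `η T` be the number of the `j ≤ T / g` prime to `b`. For at least the proportion
`κ η² (φ (b) / b) min (1, T / K)` of the moduli `m` there are at least `κ η T / K`, and at least one, multipliers `k ≤ T` such that the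
integer `k m + b` has at most `r` prime factors, all of them larger than `g ^ (K / r)`.

For `T` of the order of `log m`: a positive proportion of the moduli `m` has a number of this kind in the progression `b mod m` below a
constant times `m log m`.
-/

set_option autoImplicit false

namespace Pool.Agent.Results.MP_e1dc24_nt.MultipliersUpToLog

open Filter Finset
open Pool.Agent.Q315.RD Pool.Agent.Q48.RD
open Pool.Agent.Erdos456 (GG)

open Classical in
/-- The number of the `k` with `1 ≤ k ≤ T` such that `k m + b` has at most `r` prime factors, all of them larger than `y ^ (1 / r)`. -/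
noncomputable def multipliers (y r m b T : ℕ) : ℕ := ((Icc 1 T).filter fun k => AlmostPrime y r (k * m + b)).card

/-- The number of the `j` with `1 ≤ j ≤ x` which are prime to `b`. -/
def coprimeUpTo (b x : ℕ) : ℕ := ((Icc 1 x).filter fun j => j.Coprime b).card

/-- an element prime to `b` and divisible by the primes of `g` which do not divide `b` -/
lemma exists_G (g b : ℕ) (hg : 2 ≤ g) : ∃ G : ℕ, 1 ≤ G ∧ G ≤ g ∧ G.Coprime b ∧ ∀ x j : ℕ, (Nat.gcd x b).Coprime g → j.Coprime b →
    (G * j * x + b).Coprime g := by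
  classical
  obtain ⟨G, hG⟩ : ∃ G : ℕ, G = ∏ p ∈ g.primeFactors.filter (fun p => ¬ p ∣ b), p := ⟨_, rfl⟩
  refine ⟨G, ?_, ?_, ?_, ?_⟩
  · rw [hG]
    exact prod_pos fun p hp => (Nat.prime_of_mem_primeFactors (mem_filter.1 hp).1).pos
  · rw [hG]
    refine le_trans (prod_le_prod_of_subset_of_one_le' (filter_subset _ _) fun p hp _ => (Nat.prime_of_mem_primeFactors hp).pos) ?_
    exact Nat.le_of_dvd (by omega) (Nat.prod_primeFactors_dvd g)
  · rw [hG]
    apply Nat.Coprime.prod_left
    intro p hp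
    rw [mem_filter] at hp
    exact (Nat.Prime.coprime_iff_not_dvd (Nat.prime_of_mem_primeFactors hp.1)).2 hp.2
  · intro x j hx hj
    apply Nat.coprime_of_dvd
    intro p hp h1 h2
    by_cases hb : p ∣ b
    · have h3 : p ∣ G * j * x := (Nat.dvd_add_left hb).1 h1
      rcases hp.dvd_mul.1 h3 with h4 | h4
      · rcases hp.dvd_mul.1 h4 with h5 | h5
        · rw [hG] at h5
          obtain ⟨l, hl, hpl⟩ := (hp.prime.dvd_finsetProd_iff _).1 h5
          rw [mem_filter, Nat.mem_primeFactors] at hl
          have h6 : p = l := (Nat.prime_dvd_prime_iff_eq hp hl.1.1).1 hpl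
          exact hl.2 (h6 ▸ hb)
        · exact hp.one_lt.ne' (Nat.dvd_one.1 (hj ▸ Nat.dvd_gcd h5 hb))
      · exact hp.one_lt.ne' (Nat.dvd_one.1 (hx ▸ Nat.dvd_gcd (Nat.dvd_gcd h4 hb) h2))
    · have h4 : p ∣ G := by
        rw [hG]
        exact dvd_prod_of_mem (fun p => p) (mem_filter.2 ⟨Nat.mem_primeFactors.2 ⟨hp, h2, by omega⟩, hb⟩)
      exact hb ((Nat.dvd_add_right ((h4.mul_right j).mul_right x)).1 h1)

/-- **Almost primes `k m + b` with a multiplier `k` of the order of `log m`.** -/
theorem result (E : ℕ) :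
    ∃ c : ℝ, 0 < c ∧ ∃ r₀ : ℕ, 2 ≤ r₀ ∧ ∀ r : ℕ, r₀ ≤ r → ∀ g : ℕ, 2 ≤ g → ∃ κ : ℝ, 0 < κ ∧
      ∀ᶠ K : ℕ in atTop, ∀ N b T : ℕ, N ≤ g ^ (E * K) → 1 ≤ b → b ≤ g ^ (E * K) → g ≤ T → T ≤ g ^ (E * K) →
        ∀ A : ℕ → Finset ℕ, Rich c g K A → (∃ d ∈ A 0, (Nat.gcd (N + d) b).Coprime g) →
          ∀ η : ℝ, η = coprimeUpTo b (T / g) / T →
            κ * (η ^ 2 * (b.totient / b) * min 1 ((T : ℝ) / K)) * choices K A ≤
              count g K A (fun t => 1 ≤ multipliers (g ^ K) r (N + t) b T ∧
                κ * (η * (T / K)) ≤ multipliers (g ^ K) r (N + t) b T) := by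
  classical
  obtain ⟨c1, hc1, r1, hr1, H1⟩ := famLinR 1 E
  obtain ⟨c2, hc2, r2, hr2, H2⟩ := upForms 1 E
  obtain ⟨c3, hc3, r3, hr3, H3⟩ := upForms 2 E
  obtain ⟨B, hB, HB⟩ := GG_moment 2
  refine ⟨min c1 (min c2 c3), by positivity, max r1 (max r2 r3), by omega, fun r hr g hg => ?_⟩
  obtain ⟨κ1, C1, hκ1, hC1, H1⟩ := H1 r (by omega) g hg
  obtain ⟨C2, hC2, H2⟩ := H2 r (by omega) g hg
  obtain ⟨C3, hC3, H3⟩ := H3 r (by omega) g hg
  obtain ⟨w, W, hw, hW, HG⟩ := oneV_GG E g hg
  obtain ⟨C, hC⟩ : ∃ C : ℝ, C = C2 * W * B + C3 * W ^ 2 * (2 * B ^ 2) := ⟨_, rfl⟩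
  have hC0 : 0 < C := by rw [hC]; positivity
  refine ⟨min (κ1 / 2) (κ1 ^ 2 / (8 * C)), by positivity, ?_⟩
  filter_upwards [H1, H2, H3, HG, eventually_ge_atTop 1] with K K1 K2 K3 KG hK1
  intro N b T hN hb1 hb hgT hT A hA hd η hη
  have hKr : (0 : ℝ) < K := by exact_mod_cast (by omega : 0 < K)
  have hT1 : 1 ≤ T := by omega
  have hTr : (0 : ℝ) < T := by exact_mod_cast hT1
  have hrich : ∀ c' : ℝ, min c1 (min c2 c3) ≤ c' → Rich c' g K A := fun c' hc' => ⟨hA.1, hA.2.trans (by gcongr)⟩
  have hA1 := hrich c1 (min_le_left _ _)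
  have hA2 := hrich c2 ((min_le_right _ _).trans (min_le_left _ _))
  have hA3 := hrich c3 ((min_le_right _ _).trans (min_le_right _ _))
  have hcs : (0 : ℝ) ≤ choices K A := Nat.cast_nonneg _
  have hGb := GG_ge_one hb1
  have hbr : (0 : ℝ) < b := by exact_mod_cast hb1
  have hφb : (0 : ℝ) < b.totient := by exact_mod_cast Nat.totient_pos.2 hb1
  have hnat : ∀ n : ℕ, n ≤ g ^ (E * K) → |(n : ℤ)| ≤ (g : ℤ) ^ (E * K) := fun n hn => by
    rw [abs_of_nonneg (by positivity)]
    exact_mod_cast hn
  have hG0 : ∀ n : ℕ, 0 ≤ GG n := fun n => by unfold GG; positivity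
  obtain ⟨d, hdA, hdc⟩ := hd
  obtain ⟨G, hG1, hGg, hGb', hGx⟩ := exists_G g b hg
  obtain ⟨J, hJ⟩ : ∃ J : Finset ℕ, J = (Icc 1 (T / g)).filter fun j => j.Coprime b := ⟨_, rfl⟩
  have hJη : (J.card : ℝ) = η * T := by
    rw [hη, hJ]
    unfold coprimeUpTo
    field_simp
  have hJpos : (1 : ℝ) ≤ J.card := by
    have : 0 < J.card := by
      rw [card_pos, hJ]
      exact ⟨1, mem_filter.2 ⟨mem_Icc.2 ⟨le_rfl, (Nat.one_le_div_iff (by omega)).2 hgT⟩, Nat.coprime_one_left b⟩⟩
    exact_mod_cast this
  have hη0 : 0 < η := by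
    have : 0 < η * T := by rw [← hJη]; linarith
    exact pos_of_mul_pos_left this hTr.le
  obtain ⟨H, hH⟩ : ∃ H : Finset ℕ, H = (Icc 1 T).filter fun h => h.Coprime b := ⟨_, rfl⟩
  have hHmem : ∀ h ∈ H, 1 ≤ h ∧ h ≤ T ∧ h.Coprime b := fun h hh => by
    rw [hH, mem_filter, mem_Icc] at hh
    exact ⟨hh.1.1, hh.1.2, hh.2⟩
  have hHT : H ⊆ Icc 1 T := by rw [hH]; exact filter_subset _ _
  -- the first moment
  have hX : κ1 * J.card / K * choices K A ≤ ∑ h ∈ H, (count g K A (fun t => True ∧ AlmostPrime (g ^ K) r (h * (N + t) + b)) : ℝ) := by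
    have hinj : Set.InjOn (fun j => G * j) (J : Set ℕ) := fun j _ j' _ h => Nat.eq_of_mul_eq_mul_left (by omega) h
    calc κ1 * J.card / K * choices K A = ∑ h ∈ J.image (fun j => G * j), κ1 * choices K A / K := by
          rw [sum_const, card_image_of_injOn hinj, nsmul_eq_mul]; ring
      _ ≤ ∑ h ∈ J.image (fun j => G * j), (count g K A (fun t => True ∧ AlmostPrime (g ^ K) r (h * (N + t) + b)) : ℝ) := by
          apply sum_le_sum
          intro h hh
          obtain ⟨j, hj, rfl⟩ := mem_image.1 hh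
          rw [hJ, mem_filter, mem_Icc] at hj
          have hco : (G * j).Coprime b := Nat.Coprime.mul_left hGb' hj.2
          have hco' : IsCoprime ((G * j : ℕ) : ℤ) (b : ℤ) := Nat.isCoprime_iff_coprime.2 hco
          have hle : G * j ≤ T := (Nat.mul_le_mul hGg hj.1.2).trans (Nat.mul_div_le T g)
          have h1 := K1 (fun _ => ((G * j : ℕ) : ℤ)) (fun _ => (b : ℤ)) N (fun _ t => G * j * (N + t) + b)
            (fun _ => hnat _ (hle.trans hT)) (fun _ => hnat _ hb) hN (admZ_one hco') (fun t _ _ => by push_cast; ring) A hA1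
          have h2 := (h1.1 ⟨d, hdA, fun _ => hGx (N + d) j hdc hj.2⟩).2
          simp only [forall_const, pow_one] at h2
          simp only [true_and]
          exact h2
      _ ≤ _ := by
          apply sum_le_sum_of_subset_of_nonneg
          · intro h hh
            obtain ⟨j, hj, rfl⟩ := mem_image.1 hh
            rw [hJ, mem_filter, mem_Icc] at hj
            rw [hH, mem_filter, mem_Icc]
            exact ⟨⟨Nat.mul_pos hG1 hj.1.1, (Nat.mul_le_mul hGg hj.1.2).trans (Nat.mul_div_le T g)⟩, Nat.Coprime.mul_left hGb' hj.2⟩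
          · intro _ _ _
            exact Nat.cast_nonneg _
  -- the second moment
  have hV : ∀ h : ℕ, 1 ≤ h → h ≤ T → oneV (h : ℕ) (g ^ K) ≤ W * GG h / K := fun h h1 h2 => (KG h h1 (h2.trans hT)).2
  have hdiag : ∀ h ∈ H, (count g K A (fun t => True ∧ AlmostPrime (g ^ K) r (h * (N + t) + b) ∧ AlmostPrime (g ^ K) r (h * (N + t) + b)) : ℝ) ≤
      C2 * W / K * GG h * choices K A := by
    intro h hh
    obtain ⟨h1, h2, h3⟩ := hHmem h hh
    have h4 := K2 (fun _ => (h : ℤ)) (fun _ => (b : ℤ)) N (fun _ t => h * (N + t) + b) (fun _ => hnat _ (h2.trans hT))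
      (fun _ => hnat _ hb) hN (fun _ => Nat.isCoprime_iff_coprime.2 h3)
      (fun i j hij => absurd hij (by rw [Subsingleton.elim i j]; exact lt_irrefl _)) (fun t _ _ => by push_cast; ring) A hA2
    have h5 : (univ : Finset (Fin 1 × Fin 1)).filter (fun x => x.1 < x.2) = ∅ := by decide
    rw [h5, prod_empty, mul_one] at h4
    simp only [forall_const, univ_unique, prod_const, card_singleton, pow_one] at h4
    simp only [true_and, and_self]
    refine h4.trans ?_
    calc C2 * oneV h (g ^ K) * choices K A ≤ C2 * (W * GG h / K) * choices K A := by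
          gcongr
          exact hV h h1 h2
      _ = _ := by ring
  have hoff : ∀ h ∈ H, ∀ h' ∈ H, h ≠ h' → (count g K A (fun t => True ∧ AlmostPrime (g ^ K) r (h * (N + t) + b) ∧
      AlmostPrime (g ^ K) r (h' * (N + t) + b)) : ℝ) ≤
      C3 * W ^ 2 * GG b / (K : ℝ) ^ 2 * (GG h * GG h' * GG ((h : ℤ) - h').natAbs) * choices K A := by
    intro h hh h' hh' hne
    obtain ⟨h1, h2, h3⟩ := hHmem h hh
    obtain ⟨h1', h2', h3'⟩ := hHmem h' hh'
    have hb0 : (b : ℤ) ≠ 0 := by exact_mod_cast (by omega : b ≠ 0)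
    have h4 := K3 ![(h : ℤ), (h' : ℤ)] (fun _ => (b : ℤ)) N (fun j t => ![h * (N + t) + b, h' * (N + t) + b] j)
      (fun j => by
        fin_cases j
        · exact hnat _ (h2.trans hT)
        · exact hnat _ (h2'.trans hT))
      (fun _ => hnat _ hb) hN
      (fun j => by
        fin_cases j
        · exact Nat.isCoprime_iff_coprime.2 h3
        · exact Nat.isCoprime_iff_coprime.2 h3')
      (fun i j hij => by
        have hi : i = 0 := by omega
        have hj : j = 1 := by omega
        subst hi; subst hj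
        simp only [Matrix.cons_val_zero, Matrix.cons_val_one, Matrix.cons_val_fin_one]
        intro h0
        have h6 : (h : ℤ) = h' := by
          have h7 : ((h : ℤ) - h') * b = 0 := by linear_combination h0
          rcases mul_eq_zero.1 h7 with h8 | h8
          · omega
          · exact absurd h8 hb0
        exact hne (by exact_mod_cast h6))
      (fun t _ j => by
        fin_cases j
        · change ((h * (N + t) + b : ℕ) : ℤ) = (h : ℤ) * ((N : ℤ) + t) + (b : ℤ)
          push_cast; ring
        · change ((h' * (N + t) + b : ℕ) : ℤ) = (h' : ℤ) * ((N : ℤ) + t) + (b : ℤ)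
          push_cast; ring) A hA3
    have h5 : (univ : Finset (Fin 2 × Fin 2)).filter (fun x => x.1 < x.2) = {(0, 1)} := by decide
    rw [h5, prod_singleton, Fin.prod_univ_two] at h4
    simp only [Fin.forall_fin_two, Matrix.cons_val_zero, Matrix.cons_val_one, Matrix.cons_val_fin_one] at h4
    simp only [true_and]
    refine h4.trans ?_
    have h6 : ((h : ℤ) * b - h' * b).natAbs = b * ((h : ℤ) - h').natAbs := by
      rw [← sub_mul, Int.natAbs_mul, mul_comm]
      rfl
    rw [h6]
    have h7 : 1 ≤ ((h : ℤ) - h').natAbs := by omega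
    calc C3 * (oneV h (g ^ K) * oneV h' (g ^ K) * GG (b * ((h : ℤ) - h').natAbs)) * choices K A ≤
        C3 * ((W * GG h / K) * (W * GG h' / K) * (GG b * GG ((h : ℤ) - h').natAbs)) * choices K A := by
          apply mul_le_mul_of_nonneg_right _ hcs
          apply mul_le_mul_of_nonneg_left _ hC3.le
          apply mul_le_mul _ (GG_mul_le hb1 h7) (hG0 _) (by have := hG0 h; have := hG0 h'; positivity)
          exact mul_le_mul (hV h h1 h2) (hV h' h1' h2') (oneV_nonneg _ _) (by have := hG0 h; positivity)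
      _ = _ := by ring
  have hY : ∑ h ∈ H, ∑ h' ∈ H, (count g K A (fun t => True ∧ AlmostPrime (g ^ K) r (h * (N + t) + b) ∧
      AlmostPrime (g ^ K) r (h' * (N + t) + b)) : ℝ) ≤ C * (T / K) * (1 + GG b * (T / K)) * choices K A := by
    have h1 : ∀ h ∈ H, ∀ h' ∈ H, (count g K A (fun t => True ∧ AlmostPrime (g ^ K) r (h * (N + t) + b) ∧
        AlmostPrime (g ^ K) r (h' * (N + t) + b)) : ℝ) ≤ (if h' = h then C2 * W / K * GG h * choices K A else 0) +
        C3 * W ^ 2 * GG b / (K : ℝ) ^ 2 * (if h = h' then 0 else GG h * GG h' * GG ((h : ℤ) - h').natAbs) * choices K A := by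
      intro h hh h' hh'
      by_cases he : h = h'
      · subst he
        rw [if_pos rfl, if_pos rfl, mul_zero, zero_mul, add_zero]
        exact hdiag h hh
      · rw [if_neg (fun h2 => he h2.symm), if_neg he, zero_add]
        exact hoff h hh h' hh' he
    have hGB : ∑ h ∈ H, GG h ≤ B * T := by
      calc ∑ h ∈ H, GG h ≤ ∑ h ∈ Icc 1 T, GG h := sum_le_sum_of_subset_of_nonneg hHT fun _ _ _ => hG0 _
        _ ≤ ∑ h ∈ Icc 1 T, GG h ^ 2 := by
            apply sum_le_sum
            intro h hh
            have := GG_ge_one (mem_Icc.1 hh).1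
            nlinarith
        _ ≤ _ := HB T
    have hpairs : ∑ h ∈ H, ∑ h' ∈ H, (if h = h' then 0 else GG h * GG h' * GG ((h : ℤ) - h').natAbs) ≤ 2 * B ^ 2 * (T : ℝ) ^ 2 := by
      have hnn : ∀ h h' : ℕ, 0 ≤ (if h = h' then 0 else GG h * GG h' * GG ((h : ℤ) - h').natAbs) := by
        intro h h'
        split_ifs
        · exact le_rfl
        · have := hG0 h; have := hG0 h'; have := hG0 ((h : ℤ) - h').natAbs
          positivity
      refine le_trans ?_ (sum_pairs hB.le HB T)
      calc ∑ h ∈ H, ∑ h' ∈ H, (if h = h' then 0 else GG h * GG h' * GG ((h : ℤ) - h').natAbs)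
          ≤ ∑ h ∈ H, ∑ h' ∈ Icc 1 T, (if h = h' then 0 else GG h * GG h' * GG ((h : ℤ) - h').natAbs) :=
            sum_le_sum fun h _ => sum_le_sum_of_subset_of_nonneg hHT fun _ _ _ => hnn _ _
        _ ≤ _ := sum_le_sum_of_subset_of_nonneg hHT fun h _ _ => sum_nonneg fun _ _ => hnn _ _
    refine (sum_le_sum fun h hh => sum_le_sum fun h' hh' => h1 h hh h' hh').trans ?_
    simp only [sum_add_distrib]
    have e1 : ∑ h ∈ H, ∑ h' ∈ H, (if h' = h then C2 * W / K * GG h * choices K A else 0) = C2 * W / K * choices K A * ∑ h ∈ H, GG h := by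
      rw [mul_sum]
      apply sum_congr rfl
      intro h hh
      rw [sum_ite_eq' H h, if_pos hh]
      ring
    have e2 : ∑ h ∈ H, ∑ h' ∈ H, C3 * W ^ 2 * GG b / (K : ℝ) ^ 2 * (if h = h' then 0 else GG h * GG h' * GG ((h : ℤ) - h').natAbs) * choices K A =
        C3 * W ^ 2 * GG b / (K : ℝ) ^ 2 * choices K A * ∑ h ∈ H, ∑ h' ∈ H, (if h = h' then 0 else GG h * GG h' * GG ((h : ℤ) - h').natAbs) := by
      rw [mul_sum]
      apply sum_congr rfl
      intro h _
      rw [mul_sum]
      apply sum_congr rfl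
      intro h' _
      ring
    rw [e1, e2]
    have hGb0 : 0 ≤ GG b := hG0 b
    calc C2 * W / K * choices K A * ∑ h ∈ H, GG h + C3 * W ^ 2 * GG b / (K : ℝ) ^ 2 * choices K A *
          ∑ h ∈ H, ∑ h' ∈ H, (if h = h' then 0 else GG h * GG h' * GG ((h : ℤ) - h').natAbs)
        ≤ C2 * W / K * choices K A * (B * T) + C3 * W ^ 2 * GG b / (K : ℝ) ^ 2 * choices K A * (2 * B ^ 2 * (T : ℝ) ^ 2) := by
          apply add_le_add
          · exact mul_le_mul_of_nonneg_left hGB (by positivity)
          · exact mul_le_mul_of_nonneg_left hpairs (by positivity)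
      _ = ((C2 * W * B) * 1 + (C3 * W ^ 2 * (2 * B ^ 2)) * (GG b * (T / K))) * (T / K) * choices K A := by field_simp
      _ ≤ (C * 1 + C * (GG b * (T / K))) * (T / K) * choices K A := by
          have h3 : C2 * W * B ≤ C := by rw [hC]; have : 0 ≤ C3 * W ^ 2 * (2 * B ^ 2) := by positivity
                                         linarith
          have h4 : C3 * W ^ 2 * (2 * B ^ 2) ≤ C := by rw [hC]; have : 0 ≤ C2 * W * B := by positivity
                                                       linarith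
          gcongr
      _ = _ := by ring
  -- the second moment method
  obtain ⟨u, hu⟩ : ∃ u : ℝ, u = (T : ℝ) / K := ⟨_, rfl⟩
  have hu0 : 0 < u := by rw [hu]; positivity
  rw [← hu] at hY ⊢
  have hGbp : 0 < GG b := by linarith
  have hcard : (count g K A (fun _ => True) : ℝ) ≤ 1 * choices K A := by
    rw [one_mul, ← card_digits (by omega) hA.1]
    apply Nat.cast_le.2
    unfold count
    apply card_le_card
    intro t ht
    simp only [mem_filter] at ht ⊢
    exact ⟨ht.1, ht.2.1⟩
  have h1 := pz H (fun _ => True) (fun h t => AlmostPrime (g ^ K) r (h * (N + t) + b)) 1 (κ1 * J.card / K)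
    (C * u * (1 + GG b * u)) one_pos (by positivity) (by positivity) hcard hX hY
  have e1 : κ1 * J.card / K = κ1 * η * u := by rw [hJη, hu]; ring
  rw [e1] at h1
  refine le_trans ?_ (h1.trans (Nat.cast_le.2 (count_mono fun t ht hP => ?_)))
  · apply mul_le_mul_of_nonneg_right _ hcs
    have h2 : (b.totient : ℝ) / b = 1 / GG b := by unfold GG; rw [one_div_div]
    rw [h2]
    calc min (κ1 / 2) (κ1 ^ 2 / (8 * C)) * (η ^ 2 * (1 / GG b) * min 1 u) ≤ κ1 ^ 2 / (8 * C) * (η ^ 2 * (1 / GG b) * min 1 u) := by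
          apply mul_le_mul_of_nonneg_right (min_le_right _ _) (by positivity)
      _ ≤ (κ1 * η * u) ^ 2 / (4 * (C * u * (1 + GG b * u))) := by
          rw [le_div_iff₀ (by positivity)]
          have h3 : 1 / GG b * min 1 u * (1 + GG b * u) ≤ 2 * u := by
            have h4 : 1 / GG b * min 1 u ≤ u := by
              calc 1 / GG b * min 1 u ≤ 1 * u := by
                    apply mul_le_mul _ (min_le_right _ _) (by positivity) zero_le_one
                    rw [div_le_one hGbp]; exact hGb
                _ = u := one_mul u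
            have h5 : 1 / GG b * min 1 u * (GG b * u) ≤ u := by
              calc 1 / GG b * min 1 u * (GG b * u) = min 1 u * u := by field_simp
                _ ≤ 1 * u := mul_le_mul_of_nonneg_right (min_le_left _ _) hu0.le
                _ = u := one_mul u
            linarith
          calc κ1 ^ 2 / (8 * C) * (η ^ 2 * (1 / GG b) * min 1 u) * (4 * (C * u * (1 + GG b * u))) =
              κ1 ^ 2 * η ^ 2 * u / 2 * (1 / GG b * min 1 u * (1 + GG b * u)) := by
                field_simp; norm_num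
            _ ≤ κ1 ^ 2 * η ^ 2 * u / 2 * (2 * u) := mul_le_mul_of_nonneg_left h3 (by positivity)
            _ = _ := by ring
  · have h2 : ((H.filter fun h => AlmostPrime (g ^ K) r (h * (N + t) + b)).card : ℝ) ≤ multipliers (g ^ K) r (N + t) b T := by
      apply Nat.cast_le.2
      unfold multipliers
      apply card_le_card
      intro h hh
      rw [mem_filter] at hh
      exact mem_filter.2 ⟨hHT hh.1, hh.2⟩
    have h3 : κ1 * η * u / (2 * 1) ≤ multipliers (g ^ K) r (N + t) b T := hP.2.trans h2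
    constructor
    · have h4 : (0 : ℝ) < multipliers (g ^ K) r (N + t) b T := lt_of_lt_of_le (by positivity) h3
      exact_mod_cast h4
    · refine le_trans ?_ h3
      calc min (κ1 / 2) (κ1 ^ 2 / (8 * C)) * (η * u) ≤ κ1 / 2 * (η * u) := mul_le_mul_of_nonneg_right (min_le_left _ _) (by positivity)
        _ = _ := by ring

end Pool.Agent.Results.MP_e1dc24_nt.MultipliersUpToLog
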