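import Pool.Agent.Q48.RD.One

/-!
# The first terms of the progressions `c + k m` for the moduli `m` with restricted digits

Let `c ≥ 1` and `L` be fixed and let `k 1, …, k J` be different integers with `1 ≤ k j ≤ L` which are prime to `c` (if `c = 1`, this is no
condition). For a modulus `m` we consider the first terms `c + k m`, `1 ≤ k ≤ L`, of the residue class of `c` modulo `m` after `c`.

Let `g ≥ 2` be a base and `K` a large number of digits. For every `i < K` let `A i` be an arbitrary set of digits, such that the number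
`|A 0| ⋯ |A (K - 1)|` of the integers `t < g ^ K` whose `i`-th digit belongs to `A i` for all `i < K` is at least `exp (- c' K) g ^ K`
(`Rich`), and let `1 ≤ N ≤ g ^ (E K)`.

(1) For at least `κ |A 0| ⋯ |A (K - 1)| / K ^ J` of the moduli `m = N + t` with these `t` the numbers `c + k m` with `k` in
`{k 1, …, k J}` have at most `r` prime factors, all larger than `g ^ (K / r)`, and the numbers `c + k m` with all the other `k ≤ L`,
`k ≥ 1`, are not primes, unless there is an obvious obstruction (no digit `d` in `A 0` such that all `c + k j (N + d)` are prime to `g`).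

(2) For at most `C |A 0| ⋯ |A (K - 1)| / K` of the moduli `m = N + t` there is a prime `c + k m` with `1 ≤ k ≤ L`. So for almost all
moduli `m` in such a sparse set the least prime `> c` which is congruent to `c` modulo `m` is larger than `L m`, and (1) shows that
the almost primes among the first terms can be prescribed.

The constants do not depend on `N` and on the sets `A i`.
-/

set_option autoImplicit false

namespace Pool.Agent.Results.MP_e1dc24_nt.SparseModuli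

open Filter Finset
open Pool.Agent.Q315.RD Pool.Agent.Q48.RD

lemma adm {J : ℕ} (c : ℕ) (k : Fin J → ℕ) (hk : ∀ j, (k j).Coprime c) : AdmLin k (fun _ => c) := by
  intro p hp
  by_cases hpc : p ∣ c
  · refine ⟨1, fun j hj => ?_⟩
    have h1 : p ∣ k j := by simpa using (Nat.dvd_add_left hpc).1 hj
    exact hp.one_lt.ne' (Nat.dvd_one.1 ((hk j) ▸ Nat.dvd_gcd h1 hpc))
  · exact ⟨0, fun j hj => hpc (by simpa using hj)⟩

/-- **The first terms of the progressions `c + k m` for the moduli `m` with restricted digits.** -/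
theorem result {J : ℕ} (c L : ℕ) (hc : 1 ≤ c) (k : Fin J → ℕ) (hinj : Function.Injective k) (hkL : ∀ j, 1 ≤ k j ∧ k j ≤ L)
    (hk : ∀ j, (k j).Coprime c) (E : ℕ) :
    ∃ c' : ℝ, 0 < c' ∧ ∃ r₀ : ℕ, 2 ≤ r₀ ∧ ∀ r : ℕ, r₀ ≤ r → ∀ g : ℕ, 2 ≤ g → ∃ κ C : ℝ, 0 < κ ∧ 0 < C ∧
      ∀ᶠ K : ℕ in atTop, ∀ N : ℕ, 1 ≤ N → N ≤ g ^ (E * K) → ∀ A : ℕ → Finset ℕ, Rich c' g K A →
        ((∃ d ∈ A 0, ∀ j, (c + k j * (N + d)).Coprime g) →
          κ * choices K A / (K : ℝ) ^ J ≤ count g K A fun t =>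
            (∀ j, AlmostPrime (g ^ K) r (c + k j * (N + t))) ∧
              ∀ l : ℕ, 1 ≤ l → l ≤ L → (∀ j, l ≠ k j) → ¬ (c + l * (N + t)).Prime) ∧
        (count g K A (fun t => ∃ l : ℕ, 1 ≤ l ∧ l ≤ L ∧ (c + l * (N + t)).Prime) : ℝ) ≤ C * choices K A / K := by
  classical
  obtain ⟨c1, hc1, r1, hr1, h1⟩ := exactLin k (fun _ => c) (fun j => (hkL j).1) (fun i j hij _ => hinj hij) (adm c k hk)
    (((Icc 1 L).filter fun l => ∀ j, l ≠ k j).image fun l => (l, c))
    (fun e he => by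
      obtain ⟨l, hl, rfl⟩ := mem_image.1 he
      obtain ⟨h2, h3⟩ := mem_filter.1 hl
      exact ⟨(mem_Icc.1 h2).1, fun j hj => h3 j hj.1.symm⟩) E
  -- upper bounds for the single terms
  have hone : ∀ l : ℕ, ∃ c2 : ℝ, 0 < c2 ∧ ∃ r₀ : ℕ, 2 ≤ r₀ ∧ ∀ r : ℕ, r₀ ≤ r → ∀ g : ℕ, 2 ≤ g → ∃ C : ℝ, 0 < C ∧
      ∀ᶠ K : ℕ in atTop, ∀ N : ℕ, N ≤ g ^ (E * K) → ∀ A : ℕ → Finset ℕ, Rich c2 g K A → 1 ≤ l → l.Coprime c →
        (count g K A (fun t => (c + l * (N + t)).Prime) : ℝ) ≤ C * choices K A / K := by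
    intro l
    by_cases hl : 1 ≤ l ∧ l.Coprime c
    · obtain ⟨c2, hc2, r₀, hr₀, h3⟩ := exactLin (fun _ : Fin 1 => l) (fun _ => c) (fun _ => hl.1)
        (fun i j _ _ => Subsingleton.elim i j) (adm c _ (fun _ => hl.2)) ∅ (fun e he => absurd he (notMem_empty e)) E
      refine ⟨c2, hc2, r₀, hr₀, fun r hr g hg => ?_⟩
      obtain ⟨κ, C, -, hC, h4⟩ := h3 r hr g hg
      refine ⟨C, hC, ?_⟩
      filter_upwards [h4] with K hK N hN A hA _ _
      have h5 := (hK N hN A hA).2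
      rw [pow_one] at h5
      refine le_trans (Nat.cast_le.2 (count_mono fun t _ hP _ => ?_)) h5
      rw [add_comm]
      exact hP
    · refine ⟨1, one_pos, 2, le_rfl, fun r _ g _ => ⟨1, one_pos, ?_⟩⟩
      filter_upwards with K N hN A hA h3 h4
      exact absurd ⟨h3, h4⟩ hl
  choose c2 hc2 r2 hr2 h2 using hone
  obtain ⟨cm, hcm, hcm2⟩ : ∃ cm : ℝ, 0 < cm ∧ ∀ l ≤ L, cm ≤ c2 l := by
    clear hkL h1 h2 hr2 r2
    induction L with
    | zero => exact ⟨c2 0, hc2 0, fun l hl => by rw [Nat.le_zero.1 hl]⟩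
    | succ L ih =>
      obtain ⟨cm, hcm, h⟩ := ih
      refine ⟨min cm (c2 (L + 1)), lt_min hcm (hc2 _), fun l hl => ?_⟩
      rcases Nat.lt_or_ge L l with h5 | h5
      · have : l = L + 1 := by omega
        rw [this]
        exact min_le_right _ _
      · exact (min_le_left _ _).trans (h l h5)
  refine ⟨min c1 cm, lt_min hc1 hcm, r1 + ∑ l ∈ range (L + 1), r2 l, by omega, fun r hr g hg => ?_⟩
  obtain ⟨κ, C1, hκ, hC1, h3⟩ := h1 r (by omega) g hg
  have hr2' : ∀ l ≤ L, r2 l ≤ r := fun l hl => by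
    have : r2 l ≤ ∑ l ∈ range (L + 1), r2 l :=
      single_le_sum (f := r2) (fun _ _ => Nat.zero_le _) (mem_range.2 (by omega : l < L + 1))
    omega
  have h4 : ∀ l : ℕ, ∃ C : ℝ, 0 < C ∧ (l ≤ L → ∀ᶠ K : ℕ in atTop, ∀ N : ℕ, N ≤ g ^ (E * K) → ∀ A : ℕ → Finset ℕ,
      Rich (c2 l) g K A → 1 ≤ l → l.Coprime c → (count g K A (fun t => (c + l * (N + t)).Prime) : ℝ) ≤ C * choices K A / K) := by
    intro l
    by_cases hl : l ≤ L
    · obtain ⟨C, hC, h5⟩ := h2 l r (hr2' l hl) g hg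
      exact ⟨C, hC, fun _ => h5⟩
    · exact ⟨1, one_pos, fun h5 => absurd h5 hl⟩
  choose C2 hC2 h5 using h4
  have h6 : ∀ᶠ K : ℕ in atTop, ∀ l ∈ Icc 1 L, ∀ N : ℕ, N ≤ g ^ (E * K) → ∀ A : ℕ → Finset ℕ, Rich (c2 l) g K A → 1 ≤ l →
      l.Coprime c → (count g K A (fun t => (c + l * (N + t)).Prime) : ℝ) ≤ C2 l * choices K A / K := by
    rw [eventually_all_finset]
    intro l hl
    exact h5 l (mem_Icc.1 hl).2
  refine ⟨κ, 1 + ∑ l ∈ Icc 1 L, C2 l, hκ, by have := sum_nonneg (s := Icc 1 L) (fun l _ => (hC2 l).le); linarith, ?_⟩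
  filter_upwards [h3, h6] with K hK hK6
  intro N hN1 hN A hA
  obtain ⟨e1, -⟩ := hK N hN A (rich_mono hA (min_le_left _ _))
  have hcs : (0 : ℝ) ≤ choices K A := Nat.cast_nonneg _
  constructor
  · rintro ⟨d, hd, hcop⟩
    refine (e1 ⟨d, hd, fun j => by rw [add_comm]; exact hcop j⟩).trans (Nat.cast_le.2 (count_mono fun t _ hP => ?_))
    refine ⟨fun j => by rw [add_comm]; exact hP.1 j, fun l hl1 hl2 hl3 hl4 => ?_⟩
    refine hP.2 (l, c) (mem_image.2 ⟨l, mem_filter.2 ⟨mem_Icc.2 ⟨hl1, hl2⟩, hl3⟩, rfl⟩) ?_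
    rw [add_comm]
    exact hl4
  · have h7 : count g K A (fun t => ∃ l : ℕ, 1 ≤ l ∧ l ≤ L ∧ (c + l * (N + t)).Prime) ≤
        count g K A (fun t => ∃ l ∈ (Icc 1 L).filter (fun l => l.Coprime c), (c + l * (N + t)).Prime) := by
      refine count_mono fun t _ hP => ?_
      obtain ⟨l, hl1, hl2, hl3⟩ := hP
      refine ⟨l, mem_filter.2 ⟨mem_Icc.2 ⟨hl1, hl2⟩, ?_⟩, hl3⟩
      by_contra hcon
      obtain ⟨p, hp, hpl, hpc⟩ := Nat.Prime.not_coprime_iff_dvd.1 hcon
      have h8 : p ∣ c + l * (N + t) := dvd_add hpc (hpl.mul_right _)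
      have h9 : p = c + l * (N + t) := (Nat.prime_dvd_prime_iff_eq hp hl3).1 h8
      have h10 : p ≤ c := Nat.le_of_dvd hc hpc
      have h11 : 1 ≤ l * (N + t) := Nat.mul_pos hl1 (by omega)
      omega
    calc (count g K A (fun t => ∃ l : ℕ, 1 ≤ l ∧ l ≤ L ∧ (c + l * (N + t)).Prime) : ℝ) ≤
          ((∑ l ∈ (Icc 1 L).filter (fun l => l.Coprime c), count g K A (fun t => (c + l * (N + t)).Prime) : ℕ) : ℝ) :=
          Nat.cast_le.2 (h7.trans (count_exists_le _ g K A _))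
      _ = ∑ l ∈ (Icc 1 L).filter (fun l => l.Coprime c), (count g K A (fun t => (c + l * (N + t)).Prime) : ℝ) := by push_cast; rfl
      _ ≤ ∑ l ∈ (Icc 1 L).filter (fun l => l.Coprime c), C2 l * choices K A / K := by
          refine sum_le_sum fun l hl => ?_
          obtain ⟨hl1, hl2⟩ := mem_filter.1 hl
          have hl3 := mem_Icc.1 hl1
          exact hK6 l hl1 N hN A (rich_mono hA ((min_le_right _ _).trans (hcm2 l hl3.2))) hl3.1 hl2
      _ ≤ ∑ l ∈ Icc 1 L, C2 l * choices K A / K :=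
          sum_le_sum_of_subset_of_nonneg (filter_subset _ _) fun l _ _ => by have := hC2 l; positivity
      _ = (∑ l ∈ Icc 1 L, C2 l) * choices K A / K := by rw [← sum_div, ← sum_mul]
      _ ≤ (1 + ∑ l ∈ Icc 1 L, C2 l) * choices K A / K :=
          div_le_div_of_nonneg_right (mul_le_mul_of_nonneg_right (by linarith) hcs) (Nat.cast_nonneg K)

end Pool.Agent.Results.MP_e1dc24_nt.SparseModuli
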